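import Pool.Agent.Lib.MP_83ab87_co.Points

/-!
# Finite graphs are not dense in the asymptotic spectrum distance

For every `C` there is a countable graph `G` with finite clique covering number whose asymptotic
spectrum distance to every finite graph is at least `C`. In particular (any `C > 0`) the finite
graphs are not dense in `𝒢_∞`.
-/

namespace Pool.Agent.Results.MP_83ab87_co.NotDense

open Pool.Agent.MP83ab87

theorem result : ∀ C : ℝ, ∃ G : GInf, Countable G.V ∧
    ∀ H : GInf, Finite H.V → ENNReal.ofReal C ≤ asympDist G H := by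
  intro C
  obtain ⟨m, hm⟩ := exists_nat_ge (2 * C + 4)
  refine ⟨wit m, inferInstanceAs (Countable (Fin m × ℕ × ℕ)), ?_⟩
  intro H hH
  have h1 := le_asympDist point1 (wit m) H
  have h2 := le_asympDist point2 (wit m) H
  have h3 := le_point1_wit m
  have h4 := point2_wit_le m
  have h5 := point1_eq_point2 H
  rw [← h5] at h2
  have h7 := le_abs_self (point1.toFun (wit m) - point1.toFun H)
  have h8 := neg_abs_le (point2.toFun (wit m) - point1.toFun H)
  by_cases h9 : C ≤ |point1.toFun (wit m) - point1.toFun H|
  · exact (ENNReal.ofReal_le_ofReal h9).trans h1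
  · refine (ENNReal.ofReal_le_ofReal ?_).trans h2
    push Not at h9
    linarith

/-- The negated form of the question, in the wording of the problem. -/
theorem not_dense : ¬ ∀ G : GInf, ∀ ε : ℝ, 0 < ε →
    ∃ H : GInf, Finite H.V ∧ asympDist G H < ENNReal.ofReal ε := by
  intro h
  obtain ⟨G, -, hG⟩ := result 1
  obtain ⟨H, hH, hlt⟩ := h G 1 one_pos
  exact absurd (hG H hH) (not_le.2 hlt)

end Pool.Agent.Results.MP_83ab87_co.NotDense
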